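import Pool.Agent.BOX.StmtsG

set_option autoImplicit false

namespace Pool.Agent.BOX.H30

open Set Filter Topology MeasureTheory

theorem iop : IopStmt := by
  intro ω T M c f hT hM hf hb t ht
  have ht0 : 0 < t := hT.trans ht
  have hM1 : -(M + 1) < -1 := by linarith
  -- the function g
  set g : ℝ → ℂ := fun s => Complex.exp (Complex.I * ((-(ω * s) : ℝ) : ℂ)) * f s with hg
  have hgc : ContinuousOn g (Ioi T) := by
    apply ContinuousOn.mul _ hf
    fun_prop
  have hnorm : ∀ x : ℝ, ‖Complex.exp (Complex.I * (x : ℂ))‖ = 1 := by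
    intro x
    rw [mul_comm]
    exact Complex.norm_exp_ofReal_mul_I x
  have hgn : ∀ s > T, ‖g s‖ ≤ c * s ^ (-(M + 1)) := by
    intro s hs
    rw [hg]
    simp only [norm_mul, hnorm, one_mul]
    exact hb s hs
  have hint : ∀ a > T, IntegrableOn (fun s : ℝ => c * s ^ (-(M + 1))) (Ioi a) := by
    intro a ha
    exact (integrableOn_Ioi_rpow_of_lt hM1 (hT.trans ha)).const_mul c
  have hgi : ∀ a > T, IntegrableOn g (Ioi a) := by
    intro a ha
    refine (hint a ha).mono' ?_ ?_
    · exact (hgc.mono (Ioi_subset_Ioi ha.le)).aestronglyMeasurable measurableSet_Ioi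
    · rw [ae_restrict_iff' measurableSet_Ioi]
      exact ae_of_all _ fun s hs => hgn s (ha.trans hs)
  have hfac : ∀ a : ℝ, (∫ s in Ioi a, Complex.exp (Complex.I * ((ω * (a - s) : ℝ) : ℂ)) * f s) =
      Complex.exp (Complex.I * ((ω * a : ℝ) : ℂ)) * ∫ s in Ioi a, g s := by
    intro a
    rw [← integral_const_mul]
    apply integral_congr_ae
    apply ae_of_all
    intro s
    simp only [hg]
    rw [← mul_assoc, ← Complex.exp_add]
    congr 2
    push_cast
    ring
  have hfac2 : (fun a : ℝ => ∫ s in Ioi a, Complex.exp (Complex.I * ((ω * (a - s) : ℝ) : ℂ)) * f s) =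
      fun a : ℝ => Complex.exp (Complex.I * ((ω * a : ℝ) : ℂ)) * ∫ s in Ioi a, g s := by
    funext a
    exact hfac a
  refine ⟨?_, ?_⟩
  · rw [hfac, norm_mul, hnorm, one_mul]
    have h1 : ‖∫ s in Ioi t, g s‖ ≤ ∫ s in Ioi t, c * s ^ (-(M + 1)) := by
      apply norm_integral_le_of_norm_le (hint t ht)
      rw [ae_restrict_iff' measurableSet_Ioi]
      exact ae_of_all _ fun s hs => hgn s (ht.trans hs)
    refine h1.trans (le_of_eq ?_)
    rw [integral_const_mul, integral_Ioi_rpow_of_lt hM1 ht0]
    have e1 : -(M + 1) + 1 = -M := by ring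
    rw [e1]
    field_simp
  · rw [hfac2, hfac]
    -- fixed point
    obtain ⟨t₀, h0, h1⟩ := exists_between ht
    have hEq : (fun a : ℝ => ∫ s in Ioi a, g s) =ᶠ[𝓝 t] fun a => (∫ s in Ioi t₀, g s) - ∫ s in t₀..a, g s := by
      filter_upwards [Ioi_mem_nhds h1] with a ha
      have := intervalIntegral.integral_Ioi_sub_Ioi (μ := volume) (hgi t₀ h0) (le_of_lt ha)
      rw [← this]
      ring
    have hct : ContinuousAt g t := hgc.continuousAt (Ioi_mem_nhds ht)
    have hii : IntervalIntegrable g volume t₀ t := by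
      apply ContinuousOn.intervalIntegrable
      apply hgc.mono
      rw [uIcc_of_le h1.le]
      intro x hx
      exact h0.trans_le hx.1
    have hsm : StronglyMeasurableAtFilter g (𝓝 t) volume :=
      ContinuousOn.stronglyMeasurableAtFilter isOpen_Ioi hgc t ht
    have hd1 : HasDerivAt (fun a => ∫ s in t₀..a, g s) (g t) t :=
      intervalIntegral.integral_hasDerivAt_right hii hsm hct
    have hd2 : HasDerivAt (fun a : ℝ => ∫ s in Ioi a, g s) (- g t) t := by
      have := (hd1.const_sub (∫ s in Ioi t₀, g s))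
      exact this.congr_of_eventuallyEq hEq
    have hd3 : HasDerivAt (fun a : ℝ => Complex.exp (Complex.I * ((ω * a : ℝ) : ℂ)))
        (Complex.I * ω * Complex.exp (Complex.I * ((ω * t : ℝ) : ℂ))) t := by
      have h1 : HasDerivAt (fun a : ℝ => ((ω * a : ℝ) : ℂ)) ((ω : ℝ) : ℂ) t := by
        have : HasDerivAt (fun a : ℝ => ω * a) ω t := by
          simpa using (hasDerivAt_id t).const_mul ω
        exact this.ofReal_comp
      have h2 := ((h1.const_mul Complex.I).cexp)
      refine h2.congr_deriv ?_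
      ring
    have hd4 := hd3.mul hd2
    refine hd4.congr_deriv ?_
    have hgt : Complex.exp (Complex.I * ((ω * t : ℝ) : ℂ)) * g t = f t := by
      simp only [hg]
      rw [← mul_assoc, ← Complex.exp_add]
      have : Complex.I * ((ω * t : ℝ) : ℂ) + Complex.I * ((-(ω * t) : ℝ) : ℂ) = 0 := by
        push_cast
        ring
      rw [this, Complex.exp_zero, one_mul]
    linear_combination -hgt

end Pool.Agent.BOX.H30
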